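import Mathlib

/-! The degree-square Turan number of the strong four-vertex tournament. -/

namespace Pool.Agent.Results.MP_be36ad_co.Exact

open Finset

/-- The arcs 12, 23, 34, 41, 13, 24 of `R4` (vertices numbered from 0). -/
def R4 : Set (Fin 4 × Fin 4) := {(0, 1), (1, 2), (2, 3), (3, 0), (0, 2), (1, 3)}

/-- `D` contains no copy of `R4`. -/
def Free {V : Type} (D : V → V → Prop) : Prop :=
  ¬ ∃ f : Fin 4 → V, Function.Injective f ∧ ∀ e ∈ R4, D (f e.1) (f e.2)

/-- The sum of the squares of the out-degrees. -/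
noncomputable def sq {m : ℕ} (D : Fin m → Fin m → Prop) : ℕ := ∑ v, {u | D v u}.ncard ^ 2

/-- The extremal value. -/
def ex (m : ℕ) : ℕ :=
  if m % 3 = 0 then 12 * (m / 3) ^ 3
  else if m % 3 = 1 then 3 * (m / 3) * (2 * (m / 3) + 1) ^ 2
  else 2 * (m / 3 + 1) * (6 * (m / 3) ^ 2 + 6 * (m / 3) + 1)

def g (m : ℤ) : ℤ := 4 * m ^ 3 - if m % 3 = 0 then 0 else if m % 3 = 1 then 3 * m + 1 else 6 * m + 2

lemma g_ex (m : ℕ) : g m = 9 * ex m := by
  obtain ⟨k, h | h | h⟩ : ∃ k, m = 3 * k ∨ m = 3 * k + 1 ∨ m = 3 * k + 2 := ⟨m / 3, by omega⟩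
  · rw [g, ex, if_pos (by omega), if_pos (by omega), show m / 3 = k by omega, h]; push_cast; ring
  · rw [g, ex, if_neg (by omega), if_pos (by omega), if_neg (by omega), if_pos (by omega),
      show m / 3 = k by omega, h]; push_cast; ring
  · rw [g, ex, if_neg (by omega), if_neg (by omega), if_neg (by omega), if_neg (by omega),
      show m / 3 = k by omega, h]; push_cast; ring

lemma opt (a b c r m : ℤ) (ha : 0 ≤ a) (hb : 0 ≤ b) (hc : 0 ≤ c) (hr : 0 ≤ r)
    (ht : 1 ≤ a + b + c) (hm : m = a + b + c + r) :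
    9 * (a * (m - a) ^ 2 + b * (m - b) ^ 2 + c * (m - c) ^ 2) + g r ≤ g m := by
  have id : 27 * (a * (m - a) ^ 2 + b * (m - b) ^ 2 + c * (m - c) ^ 2) =
      12 * m ^ 3 - 9 * m * r ^ 2 - 3 * r ^ 3 - ((m - 3 * a - r) ^ 2 * (4 * m - 3 * a + 2 * r) +
      (m - 3 * b - r) ^ 2 * (4 * m - 3 * b + 2 * r) +
      (m - 3 * c - r) ^ 2 * (4 * m - 3 * c + 2 * r)) := by rw [hm]; ring
  have p : ∀ x, x ≤ m → 0 ≤ (m - 3 * x - r) ^ 2 * (4 * m - 3 * x + 2 * r) := fun x hx =>
    mul_nonneg (sq_nonneg _) (by omega)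
  have pa := p a (by omega)
  have pb := p b (by omega)
  have pc := p c (by omega)
  have gm : 4 * m ^ 3 - (6 * m + 2) ≤ g m := by unfold g; split_ifs <;> omega
  rcases (by omega : 3 ≤ r ∨ r = 2 ∨ r = 1 ∨ r = 0) with h | rfl | rfl | rfl
  · have gr : g r ≤ 4 * r ^ 3 := by unfold g; split_ifs <;> omega
    have h1 : 0 ≤ (9 * r ^ 2 - 18) * (m - r - 1) := mul_nonneg (by nlinarith) (by omega)
    nlinarith
  · have : g 2 = 18 := by decide
    omega
  · have : g 1 = 0 := by decide
    by_cases h2 : m % 3 = 2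
    · have q : ∀ x, x ≤ m → 4 * m - 3 * x + 2 ≤ (m - 3 * x - 1) ^ 2 * (4 * m - 3 * x + 2 * 1) := by
        intro x hx
        have : 1 ≤ (m - 3 * x - 1) ^ 2 := (one_le_sq_iff_one_le_abs _).2 (Int.one_le_abs (by omega))
        nlinarith
      have qa := q a (by omega)
      have qb := q b (by omega)
      have qc := q c (by omega)
      omega
    · have gm : 4 * m ^ 3 - (3 * m + 1) ≤ g m := by unfold g; split_ifs <;> omega
      omega
  · have : g 0 = 0 := by decide
    rcases (by omega : m % 3 = 0 ∨ m % 3 = 1 ∨ m % 3 = 2) with h | h | h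
    · have gm : 4 * m ^ 3 ≤ g m := by unfold g; split_ifs <;> omega
      omega
    · have gm : 4 * m ^ 3 - (3 * m + 1) ≤ g m := by unfold g; split_ifs <;> omega
      have q : ∀ x, x ≤ m → 0 ≤ (m - 3 * x - 1) * (m - 3 * x + 2) * (4 * m - 3 * x - 1) := by
        intro x hx
        refine mul_nonneg ?_ (by omega)
        rcases (by omega : 0 ≤ m - 3 * x - 1 ∨ m - 3 * x + 2 ≤ 0) with h | h <;> nlinarith
      have qa := q a (by omega)
      have qb := q b (by omega)
      have qc := q c (by omega)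
      have : c = m - a - b := by omega
      subst this
      nlinarith
    · have q : ∀ x, x ≤ m → 0 ≤ (m - 3 * x + 1) * (m - 3 * x - 2) * (4 * m - 3 * x + 1) := by
        intro x hx
        refine mul_nonneg ?_ (by omega)
        rcases (by omega : 0 ≤ m - 3 * x - 2 ∨ m - 3 * x + 1 ≤ 0) with h | h <;> nlinarith
      have qa := q a (by omega)
      have qb := q b (by omega)
      have qc := q c (by omega)
      have : c = m - a - b := by omega
      subst this
      nlinarith

variable {V : Type} [DecidableEq V] {D : V → V → Prop}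

lemma noC4 (hl : ∀ v, ¬ D v v) (hF : Free D) {a b c d : V} (h1 : D a b) (h2 : D b c)
    (h3 : D c d) (h4 : D d a) (h5 : D a c ∨ D c a) (h6 : D b d ∨ D d b) : False := by
  have k : ∀ a b c d, D a b → D b c → D c d → D d a → D a c → D b d → False := by
    intro a b c d h1 h2 h3 h4 h5 h6
    refine hF ⟨![a, b, c, d], ?_, ?_⟩
    · intro i j h
      fin_cases i <;> fin_cases j <;> simp at h ⊢ <;> subst h <;> simp_all
    · simp [R4, *]
  rcases h5 with h5 | h5 <;> rcases h6 with h6 | h6
  · exact k a b c d h1 h2 h3 h4 h5 h6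
  · exact k d a b c h4 h1 h2 h3 h6 h5
  · exact k b c d a h2 h3 h4 h1 h6 h5
  · exact k c d a b h3 h4 h1 h2 h5 h6

lemma initial (hl : ∀ v, ¬ D v v) (hF : Free D) (S : Finset V) (hS : S.Nonempty) :
    (∀ x ∈ S, ∀ y ∈ S, x = y ∨ D x y ∨ D y x) → ∃ a ∈ S, ∃ b ∈ S, ∃ c ∈ S,
      ((a = b ∧ b = c) ∨ (D a b ∧ D b a ∧ b = c) ∨ (D a b ∧ D b c ∧ D c a)) ∧
      ∀ z ∈ S, z = a ∨ z = b ∨ z = c ∨ (¬ D z a ∧ ¬ D z b ∧ ¬ D z c) := by
  induction hS using Finset.Nonempty.cons_induction with
  | singleton a => intro _; exact ⟨a, by simp, a, by simp, a, by simp, by simp, by simp⟩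
  | cons x S hx hS ih =>
    intro h
    obtain ⟨a, ha, b, hb, c, hc, h1, h2⟩ := ih fun u hu v hv =>
      h u (mem_cons_of_mem hu) v (mem_cons_of_mem hv)
    have n4 := @noC4 V _ D hl hF
    simp only [mem_cons] at h ⊢
    by_cases e1 : ¬ D x a ∧ ¬ D x b ∧ ¬ D x c
    · exact ⟨a, Or.inr ha, b, Or.inr hb, c, Or.inr hc, h1, by grind⟩
    by_cases e2 : ∀ z ∈ S, ¬ D z x
    · exact ⟨x, Or.inl rfl, x, Or.inl rfl, x, Or.inl rfl, by simp, by grind⟩
    push Not at e2
    obtain ⟨y, hy, e2⟩ := e2
    have xa := h x (Or.inl rfl) a (Or.inr ha)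
    have xb := h x (Or.inl rfl) b (Or.inr hb)
    have xc := h x (Or.inl rfl) c (Or.inr hc)
    by_cases e3 : ∃ y ∈ S, y ≠ a ∧ y ≠ b ∧ y ≠ c ∧ D y x
    · obtain ⟨y, hy, ya, yb, yc, e3⟩ := e3
      have ya' := h y (Or.inr hy) a (Or.inr ha)
      have yb' := h y (Or.inr hy) b (Or.inr hb)
      have yc' := h y (Or.inr hy) c (Or.inr hc)
      have := h2 y hy
      rcases h1 with ⟨rfl, rfl⟩ | h1 | h1
      · refine ⟨x, Or.inl rfl, a, Or.inr ha, y, Or.inr hy, by grind, ?_⟩
        rintro z (rfl | hz)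
        · simp
        have := h2 z hz
        have := h z (Or.inr hz) a (Or.inr ha)
        have := h z (Or.inr hz) y (Or.inr hy)
        have := h z (Or.inr hz) x (Or.inl rfl)
        have := @n4 x a y z
        have := @n4 x a z y
        grind
      · have := @n4 x a b y
        have := @n4 x b a y
        grind
      · have := @n4 x a b y
        have := @n4 x b c y
        have := @n4 x c a y
        grind
    · have hy2 := h2 y hy
      have hy3 : y = a ∨ y = b ∨ y = c := by grind
      have xa' : x ≠ a := fun e => hx (e ▸ ha)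
      have xb' : x ≠ b := fun e => hx (e ▸ hb)
      have xc' : x ≠ c := fun e => hx (e ▸ hc)
      rcases h1 with ⟨rfl, rfl⟩ | ⟨h1, h3, rfl⟩ | h1
      · exact ⟨x, Or.inl rfl, a, Or.inr ha, a, Or.inr ha, by grind, by grind⟩
      · by_cases e4 : D x a ∧ D b x
        · exact ⟨x, Or.inl rfl, a, Or.inr ha, b, Or.inr hb, by grind, by grind⟩
        · exact ⟨x, Or.inl rfl, b, Or.inr hb, a, Or.inr ha, by grind, by grind⟩
      · have := @n4 a x b c
        have := @n4 b x c a
        have := @n4 c x a b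
        grind

open Classical in
noncomputable def deg (D : V → V → Prop) [Fintype V] (w : V → ℤ) (x : V) : ℤ :=
  ∑ y, if D x y then w y else 0

noncomputable def F (D : V → V → Prop) [Fintype V] (w : V → ℤ) : ℤ := ∑ x, w x * deg D w x ^ 2

open Classical in
lemma shift [Fintype V] (hl : ∀ v, ¬ D v v) (w : V → ℤ) (hw : ∀ x, 0 ≤ w x) (u v : V)
    (h1 : ¬ D u v) (h2 : ¬ D v u) : ∃ A : ℤ, ∀ t : ℤ,
      F D w + t * A ≤ F D fun x => w x + t * ((if x = u then 1 else 0) - if x = v then 1 else 0) := by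
  let c : V → ℤ := fun x => (if x = u then 1 else 0) - if x = v then 1 else 0
  have e : ∀ t x, deg D (fun x => w x + t * c x) x = deg D w x + t * deg D c x := by
    intro t x
    simp only [deg, mul_sum, ← sum_add_distrib]
    exact sum_congr rfl fun y _ => by split_ifs <;> simp
  have z : ∀ x, c x * deg D c x = 0 := by
    intro x
    by_cases hx : x = u ∨ x = v
    · refine mul_eq_zero_of_right _ (sum_eq_zero fun y _ => ?_)
      simp only [c]
      grind
    · simp only [c]
      grind
  refine ⟨∑ x, (c x * deg D w x ^ 2 + 2 * w x * deg D w x * deg D c x), fun t => ?_⟩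
  change _ ≤ F D fun x => w x + t * c x
  simp only [F, e, mul_sum, ← sum_add_distrib]
  refine sum_le_sum fun x _ => ?_
  have := mul_nonneg (hw x) (sq_nonneg (t * deg D c x))
  have z1 : c x * deg D c x * (2 * t ^ 2 * deg D w x + t ^ 3 * deg D c x) = 0 := by rw [z, zero_mul]
  nlinarith

lemma upper [Fintype V] (hl : ∀ v, ¬ D v v) (hF : Free D) (n : ℕ) : ∀ w : V → ℤ, (∀ x, 0 ≤ w x) →
    (univ.filter fun x => w x ≠ 0).card ≤ n → 9 * F D w ≤ g (∑ x, w x) := by
  classical
  induction n with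
  | zero =>
    intro w _ h
    have : w = fun _ => 0 := funext fun x => by simpa using
      (filter_eq_empty_iff.1 (card_eq_zero.1 (Nat.le_zero.1 h)) (mem_univ x))
    subst this
    simp [F, g]
  | succ n ih =>
    intro w hw h
    by_cases hs : ∃ u v, w u ≠ 0 ∧ w v ≠ 0 ∧ u ≠ v ∧ ¬ D u v ∧ ¬ D v u
    · obtain ⟨u, v, hu, hv, huv, h1, h2⟩ := hs
      obtain ⟨A, hA⟩ := shift hl w hw u v h1 h2
      have k : ∀ t y, w y ≠ 0 → 0 ≤ t * A → 0 ≤ w u + t → 0 ≤ w v - t →
          w y + t * ((if y = u then 1 else 0) - if y = v then 1 else 0) = 0 →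
          9 * F D w ≤ g (∑ x, w x) := by
        intro t y hy ht a1 a2 a3
        have := ih (fun x => w x + t * ((if x = u then 1 else 0) - if x = v then 1 else 0))
          (fun x => by have := hw x; grind) (by
            refine Nat.le_of_lt_succ (lt_of_lt_of_le (card_lt_card ⟨fun x => ?_, fun hc => ?_⟩) h)
            · simp only [mem_filter, mem_univ, true_and]; grind
            · have := hc (mem_filter.2 ⟨mem_univ y, hy⟩)
              exact (mem_filter.1 this).2 a3)
        simp only [sum_add_distrib, ← mul_sum, sum_sub_distrib, sum_ite_eq', mem_univ, if_true,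
          sub_self, mul_zero, add_zero] at this
        linarith [hA t]
      have := hw u
      have := hw v
      rcases le_total 0 A with a | a
      · exact k (w v) v hv (by positivity) (by omega) (by omega) (by simp [huv.symm])
      · exact k (-w u) u hu (by nlinarith) (by omega) (by omega) (by simp [huv])
    rcases (univ.filter fun x => w x ≠ 0).eq_empty_or_nonempty with h0 | h0
    · exact ih w hw (by simp [h0])
    obtain ⟨a, ha, b, hb, c, hc, -, h2⟩ := initial hl hF _ h0 (by
      simp only [mem_filter, mem_univ, true_and]; grind)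
    simp only [mem_filter, mem_univ, true_and] at ha hb hc h2
    let T : Finset V := {a, b, c}
    let w' : V → ℤ := fun x => if x ∈ T then 0 else w x
    have hw' : ∀ x, 0 ≤ w' x := fun x => by have := hw x; grind
    have i1 := ih w' hw' (by
      refine Nat.le_of_lt_succ (lt_of_lt_of_le (card_lt_card ⟨fun x => ?_, fun hc => ?_⟩) h)
      · simp only [mem_filter, mem_univ, true_and]; grind
      · have := hc (mem_filter.2 ⟨mem_univ a, ha⟩)
        simp [w', T] at this)
    have sp : ∀ f f' : V → ℤ, (∀ x ∈ T, f' x = 0) → (∀ x ∉ T, f' x = f x) →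
        ∑ x, f x = ∑ x ∈ T, f x + ∑ x, f' x := by
      intro f f' p1 p2
      rw [← sum_add_sum_compl T f, ← sum_add_sum_compl T f', sum_eq_zero p1, zero_add]
      exact congrArg _ (sum_congr rfl fun x hx => (p2 x (mem_compl.1 hx)).symm)
    have s1 := sp w w' (by grind) (by grind)
    have s2 : F D w = ∑ x ∈ T, w x * deg D w x ^ 2 + F D w' := by
      refine sp _ _ (by grind) fun x hx => ?_
      by_cases hx0 : w x = 0
      · simp [w', hx0]
      · have : deg D w' x = deg D w x := sum_congr rfl fun y _ => by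
          have := h2 x hx0
          simp only [w', T, mem_insert, mem_singleton] at hx ⊢
          grind
        simp [this, w', hx]
    set m := ∑ x, w x
    have s3 : ∑ x ∈ T, w x * deg D w x ^ 2 ≤ ∑ x ∈ T, w x * (m - w x) ^ 2 := by
      refine sum_le_sum fun x _ => mul_le_mul_of_nonneg_left (pow_le_pow_left₀
        (sum_nonneg fun y _ => by have := hw y; grind) ?_ 2) (hw x)
      have : w x = ∑ y, if y = x then w y else 0 := by simp
      rw [le_sub_iff_add_le, this, deg, ← sum_add_distrib]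
      exact sum_le_sum fun y _ => by have := hw y; grind
    have r0 : 0 ≤ ∑ x, w' x := sum_nonneg fun x _ => hw' x
    have o := opt (w a) (if b = a then 0 else w b) (if c = a ∨ c = b then 0 else w c) _ m (hw a)
      (by have := hw b; grind) (by have := hw c; grind) r0
      (by have := hw a; have := hw b; have := hw c; grind)
    have sT : ∀ f : V → ℤ, ∑ x ∈ T, f x =
        f a + (if b = a then 0 else f b) + if c = a ∨ c = b then 0 else f c := by
      intro f
      simp only [T]
      by_cases e1 : b = a <;> by_cases e2 : c = a <;> by_cases e3 : c = b <;>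
        simp [sum_insert, e1, e2, e3, add_assoc, Ne.symm, pair_comm] <;> grind
    rw [sT] at s1
    rw [sT (fun x => w x * (m - w x) ^ 2)] at s3
    have := o s1
    split_ifs at this s3 <;> linarith

lemma sq_eq {m : ℕ} (D : Fin m → Fin m → Prop) : (sq D : ℤ) = F D fun _ => 1 := by
  classical
  simp only [sq, F, deg, one_mul, sum_boole]
  push_cast
  refine sum_congr rfl fun v _ => ?_
  rw [← Set.ncard_coe_finset]
  simp

def H (i j : Fin 4) : Prop := i ≠ j ∧ i ≠ 3

lemma lower (m : ℕ) (n : Fin 4 → ℕ) (hn : ∑ i, n i = m) : ∃ D : Fin m → Fin m → Prop,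
    (∀ v, ¬ D v v) ∧ Free D ∧ (sq D : ℤ) = n 0 * (n 1 + n 2 + n 3) ^ 2 +
      n 1 * (n 0 + n 2 + n 3) ^ 2 + n 2 * (n 0 + n 1 + n 3) ^ 2 := by
  let e : Fin m ≃ Σ i, Fin (n i) := Fintype.equivOfCardEq (by simp [hn])
  have s : ∀ f : Fin 4 → ℤ, ∑ x, f (e x).1 = ∑ i, n i * f i := fun f => by
    rw [e.sum_comp fun y => f y.1, Fintype.sum_sigma]; simp
  refine ⟨fun x y => H (e x).1 (e y).1, fun v h => h.1 rfl, ?_, ?_⟩
  · rintro ⟨f, -, h⟩
    simp only [R4, Set.mem_insert_iff, Set.mem_singleton_iff, forall_eq_or_imp, forall_eq] at h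
    revert h
    generalize (e (f 0)).1 = a, (e (f 1)).1 = b, (e (f 2)).1 = c, (e (f 3)).1 = d
    unfold H
    revert a b c d
    decide
  · classical
    rw [sq_eq]
    simp only [F, deg, one_mul]
    have := fun i => s fun j => if H i j then 1 else 0
    simp only [this]
    rw [s fun i => (∑ j, (n j : ℤ) * if H i j then 1 else 0) ^ 2]
    simp [Fin.sum_univ_four, H]

theorem result (m : ℕ) : IsGreatest
    {s | ∃ D : Fin m → Fin m → Prop, (∀ v, ¬ D v v) ∧ Free D ∧ sq D = s} (ex m) := by
  constructor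
  · obtain ⟨k, h | h | h⟩ : ∃ k, m = 3 * k ∨ m = 3 * k + 1 ∨ m = 3 * k + 2 := ⟨m / 3, by omega⟩
    · obtain ⟨D, h1, h2, h3⟩ := lower m ![k, k, k, 0] (by simp [Fin.sum_univ_four]; omega)
      refine ⟨D, h1, h2, ?_⟩
      rw [ex, if_pos (by omega), show m / 3 = k by omega]
      zify; rw [h3]; simp; ring
    · obtain ⟨D, h1, h2, h3⟩ := lower m ![k, k, k, 1] (by simp [Fin.sum_univ_four]; omega)
      refine ⟨D, h1, h2, ?_⟩
      rw [ex, if_neg (by omega), if_pos (by omega), show m / 3 = k by omega]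
      zify; rw [h3]; simp; ring
    · obtain ⟨D, h1, h2, h3⟩ := lower m ![k + 1, k + 1, k, 0] (by simp [Fin.sum_univ_four]; omega)
      refine ⟨D, h1, h2, ?_⟩
      rw [ex, if_neg (by omega), if_neg (by omega), show m / 3 = k by omega]
      zify; rw [h3]; simp; ring
  · rintro _ ⟨D, h1, h2, rfl⟩
    have := upper h1 h2 _ (fun _ => 1) (by simp) le_rfl
    rw [← sq_eq] at this
    simp only [sum_const, card_univ, Fintype.card_fin, nsmul_eq_mul, mul_one, g_ex] at this
    omega

end Pool.Agent.Results.MP_be36ad_co.Exact
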